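import Pool.Agent.V11210.FHT.Final

/-!
# Stabilisers of maps from surfaces to a bouquet need not have finite homological type

The surface is the sphere with four holes `Sig`, the closed disc of radius `9` around `0` minus the
open discs of radius `1` around `0` and of radius `1/2` around `4` and `6`, and the map is
`z ↦ z / |z|` to one of the circles of the bouquet. Let `A` be the Dehn twist around the two holes
at `4` and `6` and let `B` be the Dehn twist around the holes at `0` and `4`. The mapping classes
`B ^ l A B ^ (-l)` stabilise the class of the map. A representative of an element of the stabiliser
lifts to the infinite cyclic cover (the logarithm), and the lift is the identity on the boundary.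
The winding number of the lifted holes `log 6 + 2 π i k` relative to `log 4` gives homomorphisms
`ψ k` of the stabiliser to the integers with `ψ k (B ^ l A B ^ (-l)) = 1` if `k = l` and `0`
otherwise. Hence the first homology group of the stabiliser is not finitely generated.
-/

set_option autoImplicit false

namespace Pool.Agent.Results.MP_988b7a_gt.NotFiniteType

open Pool.Agent.V11210.FHT

/-- For every `r ≥ 1` there is a map `f` from the sphere with four holes to the bouquet of `r`
circles such that `H₁(MCG(f); ℤ)` is not finitely generated; hence `MCG(f)` does not have finite
homological type. -/
theorem result (r : ℕ) (hr : 1 ≤ r) : ∃ f : C(Sig, Bouquet r),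
    ¬ FiniteH1 (MCGf marked_subset f) ∧ ¬ FiniteHomologicalType (MCGf marked_subset f) :=
  ⟨fmap ⟨0, hr⟩, not_finite_St ⟨0, hr⟩, not_finiteHomologicalType ⟨0, hr⟩⟩

end Pool.Agent.Results.MP_988b7a_gt.NotFiniteType
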